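import Pool.Agent.KS6_98.FppA.Main

/-!
# MP_eba68f_pr, Q1: direction dependence of the variance exponent for a whole open family of laws

There is an absolute constant `a₁ > 0` such that for all real numbers `0 < s < t ≤ (1 + a₁) s` the
law with mass `9999/10000` at `s` and mass `1/10000` at `t` has the following properties: all
passage times of first-passage percolation on `ℤ²` are square integrable, the variance exponent
vanishes in the direction `(1,1)/√2`, and it is at least `1/50` in another direction.
-/

set_option autoImplicit false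

open MeasureTheory ProbabilityTheory

namespace Pool.Agent.Results.MP_eba68f_pr.AllCloseAtoms

open Pool.Agent.W822.FPP

/-- The variance fluctuation exponent of first-passage percolation on `ℤ²` depends on the
direction, for all two-atom laws with masses `9999/10000` and `1/10000` at `s < t` with `t / s`
close to one. -/
theorem result : ∃ a₁ : ℝ, 0 < a₁ ∧ ∀ s t : ℝ, 0 < s → s < t → t ≤ (1 + a₁) * s →
    ∀ F : Measure ℝ, F = ENNReal.ofReal (9999 / 10000) • Measure.dirac s +
      ENNReal.ofReal (1 / 10000) • Measure.dirac t →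
    IsProbabilityMeasure F ∧ F (Set.Iic 0) = 0 ∧
    (∀ γ : ℝ, Integrable (fun t => Real.exp (γ * t)) F) ∧
    Integrable (fun t => t ^ 2) F ∧
    (∀ v : V, MemLp (fun τ => passage τ 0 v) 2 (law F)) ∧
    chiVar F (Real.sqrt 2 / 2, Real.sqrt 2 / 2) = 0 ∧
    ∃ y : ℝ × ℝ, y.1 ^ 2 + y.2 ^ 2 = 1 ∧ ((1 / 50 : ℝ) : EReal) ≤ chiVar F y := by
  have h0 := one_lt_mm_one
  refine ⟨(mm 1 - 1) / 2, by linarith, fun s t hs hst hts F hF => ?_⟩
  set a : ℝ := t / s - 1 with ha_def
  have ha : 0 < a := by
    rw [ha_def, sub_pos, lt_div_iff₀ hs]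
    linarith
  have ha1 : a ≤ (mm 1 - 1) / 2 := by
    rw [ha_def, sub_le_iff_le_add, div_le_iff₀ hs]
    linarith
  have hstrict : mm a < mm (2 * a) :=
    Pool.Agent.KS6_98.FppA.strict_small ha (by linarith)
  obtain ⟨y, hy⟩ := exists_dir (a := a)
  have hFe : F = (Fa a).map (fun x => s * x) := by
    rw [hF]
    exact Pool.Agent.KS6_98.FppA.twoAtom_eq hs.ne'
  have hms : Measurable (fun x : ℝ => s * x) := measurable_const.mul measurable_id
  have hint : ∀ f : ℝ → ℝ, Measurable f → Integrable f ((Fa a).map (fun x => s * x)) := by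
    intro f hf
    rw [integrable_map_measure hf.aestronglyMeasurable hms.aemeasurable]
    exact integrable_Fa a (hf.comp hms)
  rw [hFe]
  refine ⟨Measure.isProbabilityMeasure_map hms.aemeasurable, ?_, fun γ => hint _ (by fun_prop),
    hint _ (by fun_prop), fun v => ?_, ?_, y, hy.1, ?_⟩
  · rw [Measure.map_apply hms measurableSet_Iic]
    apply Fa_null a (hms measurableSet_Iic)
    · simpa using hs
    · simp only [Set.mem_preimage, Set.mem_Iic, not_le]
      positivity
  · have hp : IsProbabilityMeasure (law (Fa a)) := by unfold law; infer_instance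
    have h1 : MemLp (fun τ => passage τ 0 v) 2 (law (Fa a)) := by
      refine MemLp.of_bound (meas_passage 0 v).aestronglyMeasurable ((1 + a) * nrm (v - 0)) ?_
      filter_upwards [ae_Bd ha.le] with τ hτ
      have h1 := le_passage hτ 0 v
      have h2 := passage_le hτ 0 v
      have h3 : (0 : ℝ) ≤ (nrm (v - 0) : ℝ) := by
        have := nrm_nonneg (v - 0)
        exact_mod_cast this
      rw [Real.norm_eq_abs, abs_of_nonneg (h3.trans h1)]
      exact h2
    rw [Pool.Agent.KS6_98.FppA.law_scl, memLp_map_measure_iff
      (meas_passage 0 v).aestronglyMeasurable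
      (Pool.Agent.KS6_98.FppA.meas_scl s).aemeasurable]
    refine (h1.const_mul s).congr_norm ?_ ?_
    · exact ((meas_passage 0 v).comp
        (Pool.Agent.KS6_98.FppA.meas_scl s)).aestronglyMeasurable
    · refine Filter.Eventually.of_forall fun τ => ?_
      simp only [Function.comp_apply]
      rw [Pool.Agent.KS6_98.FppA.passage_scl hs.le]
  · rw [Pool.Agent.KS6_98.FppA.chiVar_scl hs]
    exact chiVar_dg ha
  · rw [Pool.Agent.KS6_98.FppA.chiVar_scl hs]
    exact chiVar_min ha hstrict hy

end Pool.Agent.Results.MP_eba68f_pr.AllCloseAtoms
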